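import Pool.Agent.Y698.Rng
import Pool.Agent.Y697.MQ.Kum
import Pool.Agent.W164.RC.Split

/-!
# Splitting of primes in multiquadratic extensions of `ℚ(√-7)`

Port of `Pool/Agent/Y697/MQ/Gal.lean`, `Gal2.lean` to the ring `RR = ℤ[(1 + √-7) / 2]`.
-/

set_option autoImplicit false

open NumberField IsDedekindDomain

namespace Pool.Agent.R606.QM

open Pool.Agent.Y698
open Pool.Agent.W164.RC (split_abs)
open Pool.Agent.Y697.MQ (kummer_card)

/-! ### the number of residue classes -/

/-- coordinates -/
noncomputable def eqv : RR ≃ₗ[ℤ] (Fin 2 → ℤ) where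
  toFun a := ![cX a, cY a]
  invFun v := (v 0 : RR) + (v 1 : RR) * aR
  map_add' a b := by
    ext i
    fin_cases i
    · simp [(cXY_add a b).1]
    · simp [(cXY_add a b).2]
  map_smul' n a := by
    have e : n • a = (n : RR) * a := by rw [zsmul_eq_mul]
    ext i
    fin_cases i
    · simp [e, (cXY_mul (n : RR) a).1, (cXY_int n).1, (cXY_int n).2]
    · simp [e, (cXY_mul (n : RR) a).2, (cXY_int n).1, (cXY_int n).2]
  left_inv a := by
    have e : ((cX a : ℤ) : RR) + ((cY a : ℤ) : RR) * aR = a := by
      apply Subtype.ext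
      push_cast
      rw [aR_coe]
      exact (co a).symm
    exact e
  right_inv v := by
    have h1 : cX ((v 0 : RR) + (v 1 : RR) * aR) = v 0 ∧
        cY ((v 0 : RR) + (v 1 : RR) * aR) = v 1 := by
      apply cXY_of
      push_cast
      rw [aR_coe]
    ext i
    fin_cases i
    · simp [h1.1]
    · simp [h1.2]

/-- the basis -/
noncomputable def bas : Module.Basis (Fin 2) ℤ RR := Module.Basis.ofEquivFun eqv

theorem algNorm (q : RR) : Algebra.norm ℤ q = nR q := by
  rw [Algebra.norm_eq_matrix_det bas, Matrix.det_fin_two]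
  have h : ∀ i j, Algebra.leftMulMatrix bas q i j = eqv (q * bas j) i := by
    intro i j
    rw [Algebra.leftMulMatrix_eq_repr_mul]
    rfl
  have hb0 : bas 0 = (1 : RR) := by
    apply eqv.injective
    rw [bas, Module.Basis.coe_ofEquivFun, LinearEquiv.apply_symm_apply]
    ext i
    fin_cases i
    · change (Pi.single 0 1 : Fin 2 → ℤ) 0 = cX 1
      rw [cXY_one.1, Pi.single_eq_same]
    · change (Pi.single 0 1 : Fin 2 → ℤ) 1 = cY 1
      rw [cXY_one.2]
      rfl
  have hb1 : bas 1 = aR := by
    apply eqv.injective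
    rw [bas, Module.Basis.coe_ofEquivFun, LinearEquiv.apply_symm_apply]
    ext i
    fin_cases i
    · change (Pi.single 1 1 : Fin 2 → ℤ) 0 = cX aR
      rw [cXY_aR.1]
      rfl
    · change (Pi.single 1 1 : Fin 2 → ℤ) 1 = cY aR
      rw [cXY_aR.2, Pi.single_eq_same]
  rw [h, h, h, h, hb0, hb1]
  have e1 := cXY_mul q aR
  rw [cXY_aR.1, cXY_aR.2] at e1
  change cX (q * 1) * cY (q * aR) - cX (q * aR) * cY (q * 1) = nR q
  rw [e1.1, e1.2, mul_one]
  unfold nR
  ring

theorem card_res (m : RR) : Nat.card (RR ⧸ Ideal.span {m}) = (nR m).natAbs := by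
  have : Module.Free ℤ RR := Module.Free.of_basis bas
  have : Module.Finite ℤ RR := Module.Finite.of_basis bas
  have h1 := Ideal.absNorm_span_singleton m
  rw [algNorm] at h1
  rw [← h1, Ideal.absNorm_apply, Submodule.cardQuot_apply]

theorem fin_quot {m : RR} (hm : m ≠ 0) : Finite (RR ⧸ Ideal.span {m}) := by
  apply Nat.finite_of_card_ne_zero
  rw [card_res]
  intro h
  exact hm (nR_eq_zero.1 (Int.natAbs_eq_zero.1 h))

theorem pmax {z : RR} (hz : Prime z) : (Ideal.span {z}).IsMaximal :=
  PrincipalIdealRing.isMaximal_of_irreducible hz.irreducible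

/-! ### the quadratic residue symbol -/

open Classical in
/-- the symbol -/
noncomputable def lg (z d : RR) : ℤ :=
  if IsSquare (Ideal.Quotient.mk (Ideal.span {z}) d) then 1 else -1

theorem lg_ne (z d : RR) : lg z d = 1 ∨ lg z d = -1 := by
  unfold lg; split_ifs <;> simp

theorem lg_sq (z d : RR) : lg z d * lg z d = 1 := by
  rcases lg_ne z d with h | h <;> rw [h] <;> norm_num

theorem lg_one_iff (z d : RR) :
    lg z d = 1 ↔ IsSquare (Ideal.Quotient.mk (Ideal.span {z}) d) := by
  unfold lg
  split_ifs with h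
  · simp [h]
  · simp [h]

theorem euler {z : RR} (hz : Prime z) (h2 : ¬ z ∣ 2) {d : RR} (hd : ¬ z ∣ d) :
    z ∣ d ^ ((nR z).natAbs / 2) - (lg z d : RR) ∧ (nR z).natAbs % 2 = 1 := by
  classical
  have := pmax hz
  let _ : Field (RR ⧸ Ideal.span {z}) := Ideal.Quotient.field _
  have := fin_quot hz.ne_zero
  let _ := Fintype.ofFinite (RR ⧸ Ideal.span {z})
  have hc : ringChar (RR ⧸ Ideal.span {z}) ≠ 2 := by
    intro h
    have h2' : ((2 : ℕ) : RR ⧸ Ideal.span {z}) = 0 := by
      rw [← h]; exact ringChar.Nat.cast_ringChar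
    have h3 : Ideal.Quotient.mk (Ideal.span {z}) 2 = 0 := by
      rw [← h2']; exact map_natCast (Ideal.Quotient.mk (Ideal.span {z})) 2
    rw [Ideal.Quotient.eq_zero_iff_mem, Ideal.mem_span_singleton] at h3
    exact h2 h3
  have hcard : Fintype.card (RR ⧸ Ideal.span {z}) = (nR z).natAbs := by
    rw [← card_res z, Nat.card_eq_fintype_card]
  have hd0 : Ideal.Quotient.mk (Ideal.span {z}) d ≠ 0 := by
    intro h
    rw [Ideal.Quotient.eq_zero_iff_mem, Ideal.mem_span_singleton] at h
    exact hd h
  have hodd := FiniteField.odd_card_of_char_ne_two hc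
  rw [hcard] at hodd
  refine ⟨?_, hodd⟩
  rw [← Ideal.mem_span_singleton, ← Ideal.Quotient.eq, map_pow, map_intCast]
  have h4 := FiniteField.isSquare_iff hc hd0
  have h5 := FiniteField.pow_dichotomy hc hd0
  rw [hcard] at h4 h5
  unfold lg
  split_ifs with hs
  · rw [h4.1 hs]; simp
  · rcases h5 with h6 | h6
    · exact absurd (h4.2 h6) hs
    · rw [h6]; simp

/-! ### the embedding -/

variable {K : Type} [Field K] [NumberField K]

theorem ι_inj (ι : RR →+* 𝓞 K) : Function.Injective ι := by
  rw [injective_iff_map_eq_zero]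
  intro a ha
  by_contra h0
  have h3 : ι ((nR a : ℤ) : RR) = 0 := by
    rw [← mul_cj, map_mul, ha, zero_mul]
  rw [map_intCast] at h3
  have h4 : nR a = 0 := by exact_mod_cast h3
  exact h0 (nR_eq_zero.1 h4)

/-- `K` is generated over the image of `RR` by square roots of the elements of `s` -/
structure GenBy (ι : RR →+* 𝓞 K) (s : Finset RR) (r : RR → 𝓞 K) : Prop where
  sq : ∀ d ∈ s, r d ^ 2 = ι d
  gen : ∀ L : Subfield K, (∀ g : RR, (ι g : K) ∈ L) → (∀ d ∈ s, (r d : K) ∈ L) → L = ⊤

/-! ### the ground field -/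

section
variable {k : Type} [Field k] [Algebra RR k] [IsFractionRing RR k]

theorem RR_charZero : CharZero RR := inferInstance

theorem k_charZero : CharZero k :=
  charZero_of_injective_algebraMap (IsFractionRing.injective RR k)

variable [Algebra k K]

theorem fin_kK : FiniteDimensional k K := by
  have := k_charZero (k := k)
  have : IsScalarTower ℚ k K := IsScalarTower.of_algebraMap_eq' (RingHom.ext_rat _ _)
  exact FiniteDimensional.right ℚ k K

theorem isGalois_gen {ι : RR →+* 𝓞 K}
    (hc : ∀ g : RR, algebraMap k K (algebraMap RR k g) = (ι g : K))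
    {s : Finset RR} {r : RR → 𝓞 K} (h : GenBy ι s r) : IsGalois k K ∧
    ∀ σ : K ≃ₐ[k] K, (∀ d ∈ s, σ (r d : K) = (r d : K)) → σ = 1 := by
  classical
  have := k_charZero (k := k)
  have := fin_kK (k := k) (K := K)
  refine ⟨?_, ?_⟩
  · set p : Polynomial k := ∏ d ∈ s, (Polynomial.X ^ 2 - Polynomial.C (algebraMap RR k d)) with hp
    have hfac : ∀ d ∈ s, Polynomial.map (algebraMap k K)
        (Polynomial.X ^ 2 - Polynomial.C (algebraMap RR k d)) =
        (Polynomial.X - Polynomial.C ((r d : 𝓞 K) : K)) *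
          (Polynomial.X - Polynomial.C (-((r d : 𝓞 K) : K))) := by
      intro d hd
      rw [Polynomial.map_sub, Polynomial.map_pow, Polynomial.map_X, Polynomial.map_C, hc,
        ← h.sq d hd, Polynomial.C_neg]
      push_cast
      rw [Polynomial.C_pow]
      ring
    have hp0 : p ≠ 0 := Finset.prod_ne_zero_iff.2 fun d _ => Polynomial.X_pow_sub_C_ne_zero
      (by norm_num) _
    have : Polynomial.IsSplittingField k K p := by
      rw [isSplittingField_iff_intermediateField]
      constructor
      · rw [hp, Polynomial.map_prod]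
        apply Polynomial.Splits.prod
        intro d hd
        rw [hfac d hd]
        exact (Polynomial.Splits.X_sub_C _).mul (Polynomial.Splits.X_sub_C _)
      · rw [eq_top_iff]
        intro x _
        have h1 := h.gen (IntermediateField.adjoin k (p.rootSet K)).toSubfield (by
          intro g
          rw [← hc g]
          exact (IntermediateField.adjoin k (p.rootSet K)).algebraMap_mem _) (by
          intro d hd
          apply IntermediateField.subset_adjoin
          rw [Polynomial.mem_rootSet]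
          refine ⟨hp0, ?_⟩
          rw [hp, map_prod]
          apply Finset.prod_eq_zero hd
          rw [map_sub, map_pow, Polynomial.aeval_X, Polynomial.aeval_C, hc, ← h.sq d hd]
          push_cast
          ring)
        have h2 : x ∈ (IntermediateField.adjoin k (p.rootSet K)).toSubfield := by
          rw [h1]; trivial
        exact h2
    have : Normal k K := Normal.of_isSplittingField p
    have : Algebra.IsSeparable k K := Algebra.IsAlgebraic.isSeparable_of_perfectField
    exact ⟨⟩
  · intro σ hσ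
    have h1 := h.gen (RingHom.eqLocusField (σ : K →+* K) (RingHom.id K)) (by
      intro g
      rw [← hc g]
      exact σ.commutes _) (fun d hd => hσ d hd)
    ext x
    have h2 : x ∈ (RingHom.eqLocusField (σ : K →+* K) (RingHom.id K)) := by rw [h1]; trivial
    exact h2

end

open Classical in
/-- the residue degree -/
noncomputable def fd2 (z : RR) (s : Finset RR) : ℕ := if ∀ d ∈ s, lg z d = 1 then 1 else 2

/-- no nonempty product is a square -/
def Indep (t : Finset RR) : Prop :=
  ∀ J ⊆ t, J.Nonempty → ∀ a b : RR, b ≠ 0 → b ^ 2 * ∏ d ∈ J, d ≠ a ^ 2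

theorem Indep.not_sq {t : Finset RR} (h : Indep t) {k : Type} [Field k] [Algebra RR k]
    [IsFractionRing RR k] (J : Finset RR) (hJ : J ⊆ t) (hne : J.Nonempty) :
    ¬ IsSquare (∏ d ∈ J, algebraMap RR k d) := by
  rintro ⟨x, hx⟩
  obtain ⟨a, b, hb, rfl⟩ := IsFractionRing.div_surjective RR x
  have hb0 : b ≠ 0 := nonZeroDivisors.ne_zero hb
  have hbk : algebraMap RR k b ≠ 0 := fun h => hb0 (IsFractionRing.injective RR k (by
    rw [h, map_zero]))
  apply h J hJ hne a b hb0
  apply IsFractionRing.injective RR k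
  rw [map_mul, map_prod, hx, map_pow, map_pow]
  field_simp

theorem split_aux {k : Type} [Field k] [Algebra RR k] [IsFractionRing RR k] [Algebra k K]
    (ι : RR →+* 𝓞 K) (hc : ∀ g : RR, algebraMap k K (algebraMap RR k g) = (ι g : K))
    {s : Finset RR} {r : RR → 𝓞 K} (h : GenBy ι s r)
    (hind : Indep s) (h0 : ∀ d ∈ s, d ≠ 0) {p : RR} (hp : Prime p) (hp2 : ¬ p ∣ 2)
    (hps : ∀ d ∈ s, ¬ p ∣ d) :
    (∀ v : HeightOneSpectrum (𝓞 K), ι p ∈ v.asIdeal →
      Ideal.absNorm v.asIdeal = (nR p).natAbs ^ fd2 p s) ∧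
    Nat.card {v : HeightOneSpectrum (𝓞 K) // ι p ∈ v.asIdeal} * fd2 p s = 2 ^ s.card := by
  classical
  have := k_charZero (k := k)
  have := fin_kK (k := k) (K := K)
  obtain ⟨hgal, hgi⟩ := isGalois_gen hc h
  let _ : Algebra RR (𝓞 K) := ι.toAlgebra
  have halg : ∀ a : RR, algebraMap RR (𝓞 K) a = ι a := fun _ => rfl
  have hσι : ∀ (σ : K ≃ₐ[k] K) (a : RR), σ • (ι a) = ι a := by
    intro σ a
    apply RingOfIntegers.ext
    change σ ((ι a : 𝓞 K) : K) = _
    rw [← hc, AlgEquiv.commutes]
  have hcomm : SMulCommClass (K ≃ₐ[k] K) RR (𝓞 K) := by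
    constructor
    intro g a x
    rw [Algebra.smul_def, Algebra.smul_def, halg, smul_mul', hσι]
  have hinv : Algebra.IsInvariant RR (𝓞 K) (K ≃ₐ[k] K) := by
    constructor
    intro b hb
    obtain ⟨y, hy⟩ := (IsGalois.mem_range_algebraMap_iff_fixed (F := k) (b : K)).2 (fun σ =>
      congrArg (fun z : 𝓞 K => (z : K)) (hb σ))
    have h1 : IsIntegral ℤ y := by
      have h2 : IsIntegral ℤ (algebraMap k K y) := by rw [hy]; exact b.2
      exact (isIntegral_algHom_iff ((algebraMap k K).toIntAlgHom) (algebraMap k K).injective).1 h2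
    have h2 : IsIntegral RR y := h1.tower_top
    obtain ⟨g, hg⟩ := IsIntegrallyClosed.isIntegral_iff.1 h2
    refine ⟨g, ?_⟩
    apply RingOfIntegers.ext
    rw [halg, ← hc, hg, hy]
  have hp0 : p ≠ 0 := hp.ne_zero
  have hmax : (Ideal.span {p}).IsMaximal := pmax hp
  have hfz : Finite (RR ⧸ Ideal.span {p}) := fin_quot hp0
  have hcardz : Nat.card (RR ⧸ Ideal.span {p}) = (nR p).natAbs := card_res p
  have hcopd : ∀ d ∈ s, IsCoprime p (4 * d) := fun d hd =>
    (hp.irreducible.coprime_iff_not_dvd).2 fun h1 => by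
      rcases hp.dvd_or_dvd h1 with h2 | h2
      · apply hp2
        rw [show (4 : RR) = 2 * 2 by norm_num] at h2
        rcases hp.dvd_or_dvd h2 with h3 | h3 <;> exact h3
      · exact hps d hd h2
  have hcard : Nat.card (K ≃ₐ[k] K) = 2 ^ s.card := by
    have h1 := kummer_card (k := k) (K := K) (I := s) (fun d => ((r d : 𝓞 K) : K))
      (fun d => algebraMap RR k d) (fun d hd => h0 d d.2 (IsFractionRing.injective RR k (by
        rw [hd, map_zero]))) (fun d => by
        rw [hc, ← h.sq d d.2]; push_cast; rfl) two_ne_zero (by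
        intro J hJ
        have h2 := hind.not_sq (k := k) (J.map (Function.Embedding.subtype _)) (by
          intro x hx
          rw [Finset.mem_map] at hx
          obtain ⟨y, -, rfl⟩ := hx
          exact y.2) (hJ.map)
        rw [Finset.prod_map] at h2
        exact h2) (fun σ hσ => hgi σ fun d hd => hσ ⟨d, hd⟩)
    rw [h1, Fintype.card_coe]
  -- one place
  have key : ∀ v : HeightOneSpectrum (𝓞 K), ι p ∈ v.asIdeal →
      Ideal.absNorm v.asIdeal = (nR p).natAbs ^ fd2 p s ∧
      ((Ideal.span {p} : Ideal RR).primesOver (𝓞 K)).ncard * fd2 p s = 2 ^ s.card := by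
    intro v hv
    have hvpr := v.isPrime
    have hvmax : v.asIdeal.IsMaximal := v.isPrime.isMaximal v.ne_bot
    have hfv : Finite (𝓞 K ⧸ v.asIdeal) := Ideal.finiteQuotientOfFreeOfNeBot v.asIdeal v.ne_bot
    have hover : v.asIdeal.LiesOver (Ideal.span {p}) := by
      constructor
      refine hmax.eq_of_le ?_ ?_
      · exact (inferInstance : (v.asIdeal.under RR).IsPrime).ne_top
      · rw [Ideal.span_singleton_le_iff_mem, Ideal.mem_comap]
        exact hv
    -- signs are determined modulo `v`
    have h2r : ∀ d ∈ s, 2 * r d ∉ v.asIdeal := by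
      intro d hd h1
      have h3 : (2 * r d) * (2 * r d) ∈ v.asIdeal := v.asIdeal.mul_mem_left _ h1
      have h4 : (2 * r d) * (2 * r d) = ι (4 * d) := by
        rw [map_mul, ← h.sq d hd, map_ofNat]; ring
      rw [h4] at h3
      obtain ⟨x, y, hxy⟩ := hcopd d hd
      apply v.isPrime.ne_top
      rw [Ideal.eq_top_iff_one, ← map_one ι, ← hxy, map_add, map_mul ι x p, map_mul ι y (4 * d)]
      exact v.asIdeal.add_mem (v.asIdeal.mul_mem_left _ hv) (v.asIdeal.mul_mem_left _ h3)
    have hsign : ∀ σ : K ≃ₐ[k] K, ∀ d ∈ s, σ • r d = r d ∨ σ • r d = - r d := by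
      intro σ d hd
      have h1 : (σ • r d) ^ 2 = (r d) ^ 2 := by
        rw [← smul_pow', h.sq d hd, hσι]
      rcases sq_eq_sq_iff_eq_or_eq_neg.1 h1 with h2 | h2
      · exact Or.inl h2
      · exact Or.inr h2
    obtain ⟨σ, hσ⟩ := IsArithFrobAt.exists_of_isInvariant RR (K ≃ₐ[k] K) v.asIdeal
    have hσ' : ∀ x : 𝓞 K, σ • x - x ^ Nat.card (RR ⧸ Ideal.span {p}) ∈ v.asIdeal := by
      intro x
      have h1 := hσ x
      rw [← hover.over] at h1
      exact h1
    have hleg : ∀ d ∈ s, σ • r d = ((lg p d : ℤ) : 𝓞 K) * r d := by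
      intro d hd
      have h1 := hσ' (r d)
      rw [hcardz] at h1
      obtain ⟨hEu, hQ⟩ := euler hp hp2 (hps d hd)
      have h3 : r d ^ (nR p).natAbs = ι d ^ ((nR p).natAbs / 2) * r d := by
        rw [← h.sq d hd, ← pow_mul, ← pow_succ]
        congr 1
        omega
      have h4 : ι d ^ ((nR p).natAbs / 2) - ((lg p d : ℤ) : 𝓞 K) ∈ v.asIdeal := by
        obtain ⟨c, hc'⟩ := hEu
        have h5 := congrArg ι hc'
        rw [map_sub, map_mul, map_pow, map_intCast] at h5
        rw [h5]
        exact v.asIdeal.mul_mem_right _ hv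
      have h5 : σ • r d - ((lg p d : ℤ) : 𝓞 K) * r d ∈ v.asIdeal := by
        have h6 := v.asIdeal.add_mem h1 (v.asIdeal.mul_mem_right (r d) h4)
        rw [h3] at h6
        have e : σ • r d - ι d ^ ((nR p).natAbs / 2) * r d +
          (ι d ^ ((nR p).natAbs / 2) - ((lg p d : ℤ) : 𝓞 K)) * r d =
          σ • r d - ((lg p d : ℤ) : 𝓞 K) * r d := by ring
        rwa [e] at h6
      rcases hsign σ d hd with h6 | h6 <;> rcases lg_ne p d with h7 | h7
      · rw [h6, h7]; push_cast; ring
      · exfalso
        rw [h6, h7] at h5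
        apply h2r d hd
        have e : r d - ((-1 : ℤ) : 𝓞 K) * r d = 2 * r d := by push_cast; ring
        rwa [e] at h5
      · exfalso
        rw [h6, h7] at h5
        apply h2r d hd
        have e : -(-r d - ((1 : ℤ) : 𝓞 K) * r d) = 2 * r d := by push_cast; ring
        rw [← e]
        exact v.asIdeal.neg_mem h5
      · rw [h6, h7]; push_cast; ring
    have hext : ∀ g : K ≃ₐ[k] K, (∀ d ∈ s, g • r d = r d) → g = 1 := by
      intro g hg
      apply hgi
      intro d hd
      exact congrArg (fun z : 𝓞 K => (z : K)) (hg d hd)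
    have hord : orderOf σ = fd2 p s := by
      unfold fd2
      split_ifs with hall
      · rw [orderOf_eq_one_iff]
        apply hext
        intro d hd
        rw [hleg d hd, hall d hd]
        push_cast; ring
      · apply orderOf_eq_prime
        · apply hext
          intro d hd
          rw [sq, mul_smul, hleg d hd, smul_mul', hleg d hd, ← mul_assoc]
          have h1 : σ • ((lg p d : ℤ) : 𝓞 K) = ((lg p d : ℤ) : 𝓞 K) := by
            have := hσι σ ((lg p d : ℤ) : RR)
            rwa [map_intCast] at this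
          rw [h1]
          have h2 := lg_sq p d
          have h3 : ((lg p d : ℤ) : 𝓞 K) * ((lg p d : ℤ) : 𝓞 K) = 1 := by
            exact_mod_cast congrArg (fun n : ℤ => (n : 𝓞 K)) h2
          rw [h3, one_mul]
        · intro h1
          apply hall
          intro d hd
          have h2 := hleg d hd
          rw [h1, one_smul] at h2
          rcases lg_ne p d with h3 | h3
          · exact h3
          · exfalso
            rw [h3] at h2
            apply h2r d hd
            have e : 2 * r d = r d - ((-1 : ℤ) : 𝓞 K) * r d := by push_cast; ring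
            rw [e, ← h2, sub_self]
            exact v.asIdeal.zero_mem
    have h5 := split_abs (K ≃ₐ[k] K) (Ideal.span {p}) v.asIdeal (by
      intro g hg
      apply hext
      intro d hd
      rcases hsign g d hd with h6 | h6
      · exact h6
      · exfalso
        have h7 := hg (r d)
        rw [h6] at h7
        apply h2r d hd
        have e : 2 * r d = -(-r d - r d) := by ring
        rw [e]
        exact v.asIdeal.neg_mem h7) σ hσ'
    rw [hcardz, hord, hcard] at h5
    refine ⟨?_, h5.2⟩
    rw [Ideal.absNorm_apply, Submodule.cardQuot_apply]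
    exact h5.1
  -- existence of a place
  have hex : ∃ v : HeightOneSpectrum (𝓞 K), ι p ∈ v.asIdeal := by
    have hnu : ¬ IsUnit (ι p) := by
      intro hun
      obtain ⟨w, hw⟩ := hun.exists_right_inv
      obtain ⟨b, hb⟩ := hinv.isInvariant w (by
        intro t
        have h4 : ι p * (t • w) = 1 := by
          rw [← hσι t p, ← smul_mul', hw, smul_one]
        exact hun.mul_left_cancel (h4.trans hw.symm))
      apply hp.not_isUnit
      refine IsUnit.of_mul_eq_one b ?_
      apply ι_inj ι
      rw [map_mul, map_one, ← halg b, hb]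
      exact hw
    obtain ⟨M, hM, hzM⟩ := exists_max_ideal_of_mem_nonunits (mem_nonunits_iff.2 hnu)
    refine ⟨⟨M, hM.isPrime, ?_⟩, hzM⟩
    intro hbot
    rw [hbot, Ideal.mem_bot] at hzM
    exact hp0 (ι_inj ι (by rw [hzM, map_zero]))
  obtain ⟨v0, hv0⟩ := hex
  refine ⟨fun v hv => (key v hv).1, ?_⟩
  have h6 := (key v0 hv0).2
  have h7 : Nat.card {v : HeightOneSpectrum (𝓞 K) // ι p ∈ v.asIdeal} =
      ((Ideal.span {p} : Ideal RR).primesOver (𝓞 K)).ncard := by
    rw [← Nat.card_coe_set_eq]
    refine Nat.card_congr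
      { toFun := fun v => ⟨v.1.asIdeal, v.1.isPrime, ?_⟩
        invFun := fun P => ⟨⟨P.1, P.2.1, ?_⟩, ?_⟩
        left_inv := fun v => rfl
        right_inv := fun P => rfl }
    · constructor
      have := v.1.isPrime
      refine hmax.eq_of_le ?_ ?_
      · exact (inferInstance : (v.1.asIdeal.under RR).IsPrime).ne_top
      · rw [Ideal.span_singleton_le_iff_mem, Ideal.mem_comap]
        exact v.2
    · have h8 := P.2.2.over
      intro hbot
      have h9 : p ∈ P.1.under RR := by
        rw [← h8]; exact Ideal.mem_span_singleton_self p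
      rw [Ideal.mem_comap, hbot, Ideal.mem_bot, halg] at h9
      exact hp0 (ι_inj ι (by rw [h9, map_zero]))
    · have h8 := P.2.2.over
      have h9 : p ∈ P.1.under RR := by
        rw [← h8]; exact Ideal.mem_span_singleton_self p
      rw [Ideal.mem_comap] at h9
      exact h9
  rw [h7, h6]

theorem split_loc (ι : RR →+* 𝓞 K) {s : Finset RR} {r : RR → 𝓞 K} (h : GenBy ι s r)
    (hind : Indep s) (h0 : ∀ d ∈ s, d ≠ 0) {p : RR} (hp : Prime p) (hp2 : ¬ p ∣ 2)
    (hps : ∀ d ∈ s, ¬ p ∣ d) :
    (∀ v : HeightOneSpectrum (𝓞 K), ι p ∈ v.asIdeal →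
      Ideal.absNorm v.asIdeal = (nR p).natAbs ^ fd2 p s) ∧
    Nat.card {v : HeightOneSpectrum (𝓞 K) // ι p ∈ v.asIdeal} * fd2 p s = 2 ^ s.card := by
  have hinj : Function.Injective ((algebraMap (𝓞 K) K).comp ι) := by
    intro a b hab
    apply ι_inj ι
    exact RingOfIntegers.ext hab
  let _ : Algebra (FractionRing RR) K := (IsFractionRing.lift (K := FractionRing RR) hinj).toAlgebra
  exact split_aux (k := FractionRing RR) ι (fun g => IsFractionRing.lift_algebraMap hinj g) h hind
    h0 hp hp2 hps

end Pool.Agent.R606.QM
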